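import Pool.Agent.K7.H47.DM.Stm3

/-!
# Dope matrices: JOB TRI (helper1)
-/

set_option autoImplicit false

open Polynomial

namespace Pool.Agent.K7.H1.DM2

open Pool.Agent.K7.H47.DM

theorem tri (hA : StAllQ) : StTri := by
  intro Λ Λ' hΛ hΛ' h s D p q hs hx
  obtain ⟨h1, hx0, hx1⟩ := ratio_ne hΛ
  obtain ⟨h1', hy0, hy1⟩ := ratio_ne hΛ'
  have hT := tr_of_trG h1 h1' (trG_of_sim h)
  have hT' := tr_of_trG h1' h1 (trG_of_sim fun n => (h n).symm)
  generalize ratio Λ = x at *
  generalize ratio Λ' = y at *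
  by_cases hrat : ∃ r : ℚ, x = r
  · obtain ⟨r, hr⟩ := hrat
    left
    have h2 := Pool.Agent.K7.H47.DM.pow Pool.Agent.K7.H99.DM.sym x y 1 r hx0 hx1 hy0 hy1 le_rfl
      hT hT' (by rw [pow_one, hr])
    rw [pow_one] at h2
    rw [h2, ← hr, hx]
  · have hs0 : s ≠ 0 := by
      rintro rfl
      exact hrat ⟨p, by rw [hx]; simp⟩
    have hq0 : q ≠ 0 := by
      rintro rfl
      exact hrat ⟨p, by rw [hx]; simp⟩
    have hD0 : 0 < D := by
      have : (0 : ℝ) < D := by
        rw [← hs]
        positivity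
      exact_mod_cast this
    set u : ℚ := -2 * p with hu
    set v : ℚ := p ^ 2 - q ^ 2 * D with hv
    set N : ℚ := (u.den : ℚ) * v.den with hN
    have hN0 : 0 < N := by
      have := u.den_pos
      have := v.den_pos
      positivity
    have hQ : ((u.num * v.den : ℤ) : ℚ) = N * u := by
      push_cast
      have : (u.den : ℚ) * u = u.num := Rat.den_mul_eq_num u
      rw [← this, hN]
      ring
    have hS : ((v.num * u.den : ℤ) : ℚ) = N * v := by
      push_cast
      have : (v.den : ℚ) * v = v.num := Rat.den_mul_eq_num v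
      rw [← this, hN]
      ring
    have hP : ((u.den * v.den : ℤ) : ℚ) = N := by
      push_cast
      rfl
    have hdisc : (((u.num * v.den) ^ 2 - 4 * (u.den * v.den) * (v.num * u.den) : ℤ) : ℚ) =
        N ^ 2 * (4 * q ^ 2 * D) := by
      have e : (((u.num * v.den) ^ 2 - 4 * (u.den * v.den) * (v.num * u.den) : ℤ) : ℚ) =
          ((u.num * v.den : ℤ) : ℚ) ^ 2 - 4 * ((u.den * v.den : ℤ) : ℚ) *
            ((v.num * u.den : ℤ) : ℚ) := by
        push_cast
        ring
      rw [e, hQ, hP, hS, hu, hv]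
      ring
    have hpos : 0 < (u.num * v.den) ^ 2 - 4 * ((u.den : ℤ) * v.den) * (v.num * u.den) := by
      have : (0 : ℚ) < (((u.num * v.den) ^ 2 - 4 * (u.den * v.den) * (v.num * u.den) : ℤ) : ℚ) := by
        rw [hdisc]
        positivity
      exact_mod_cast this
    have hcast : ∀ z : ℂ, (((u.den * v.den : ℤ)) : ℂ) * z ^ 2 + ((u.num * v.den : ℤ) : ℂ) * z +
        ((v.num * u.den : ℤ) : ℂ) = (N : ℂ) * ((z - p) ^ 2 - q ^ 2 * D) := by
      intro z
      have e1 : ((u.den * v.den : ℤ) : ℂ) = ((N : ℚ) : ℂ) := by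
        rw [← hP]
        push_cast
        rfl
      have e2 : ((u.num * v.den : ℤ) : ℂ) = ((N * u : ℚ) : ℂ) := by
        rw [← hQ]
        push_cast
        rfl
      have e3 : ((v.num * u.den : ℤ) : ℂ) = ((N * v : ℚ) : ℂ) := by
        rw [← hS]
        push_cast
        rfl
      rw [e1, e2, e3, hu, hv]
      push_cast
      ring
    have hs2 : (s : ℂ) ^ 2 = (D : ℂ) := by
      have := congrArg (fun t : ℝ => (t : ℂ)) hs
      push_cast at this
      exact this
    have hNC : (N : ℂ) ≠ 0 := by exact_mod_cast hN0.ne'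
    have hsq : ¬ IsSquare ((u.num * v.den) ^ 2 - 4 * ((u.den : ℤ) * v.den) * (v.num * u.den)) := by
      rintro ⟨m, hm⟩
      rw [hm] at hdisc
      have h3 : ((m : ℝ)) ^ 2 = (2 * N * q * s) ^ 2 := by
        have h4 : (((m * m : ℤ) : ℚ) : ℝ) = ((N ^ 2 * (4 * q ^ 2 * D) : ℚ) : ℝ) := by
          rw [hdisc]
        push_cast at h4
        rw [← hs] at h4
        linear_combination h4
      have hNR : (N : ℝ) ≠ 0 := by exact_mod_cast hN0.ne'
      rcases sq_eq_sq_iff_eq_or_eq_neg.1 h3 with h5 | h5
      · apply hrat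
        refine ⟨p + m / (2 * N), ?_⟩
        rw [hx]
        have h6 : (m : ℂ) = 2 * N * q * s := by exact_mod_cast h5
        push_cast
        rw [h6]
        field_simp
      · apply hrat
        refine ⟨p - m / (2 * N), ?_⟩
        rw [hx]
        have h6 : (m : ℂ) = -(2 * N * q * s) := by exact_mod_cast h5
        push_cast
        rw [h6]
        field_simp
        ring
    have h7 := hA x y hx0 hx1 hy0 hy1 hT (u.den * v.den) (u.num * v.den) (v.num * u.den)
      hpos hsq (by
        rw [hcast, hx, ← hs2]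
        ring)
    rw [hcast] at h7
    rcases mul_eq_zero.1 h7 with h8 | h8
    · exact absurd h8 hNC
    · rw [← hs2] at h8
      have h9 : (y - p - q * s) * (y - p + q * s) = 0 := by linear_combination h8
      rcases mul_eq_zero.1 h9 with h10 | h10
      · left
        linear_combination h10
      · right
        linear_combination h10

end Pool.Agent.K7.H1.DM2
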