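import Pool.Agent.K7.H81.PD.Stm3

/-!
# PD: JOB FIS (helper1)
-/

set_option autoImplicit false

noncomputable section

open MeasureTheory Filter Topology
open scoped ContDiff

namespace Pool.Agent.K7.H1.PDFIS

open Pool.Agent.K7.H81.PD MvPolynomial

variable {N : ℕ}

/-- the polynomial function -/
def ev (P : MvPolynomial (Fin N) ℝ) (x : E N) : ℝ := MvPolynomial.eval (fun i => x i) P

theorem contDiff_ev (P : MvPolynomial (Fin N) ℝ) : ContDiff ℝ ∞ (ev P) := by
  induction P using MvPolynomial.induction_on with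
  | C a =>
    have : ev (C a : MvPolynomial (Fin N) ℝ) = fun _ => a := by
      funext x
      simp [ev]
    rw [this]
    exact contDiff_const
  | add p q hp hq =>
    have : ev (p + q) = fun x => ev p x + ev q x := by
      funext x
      simp [ev]
    rw [this]
    exact hp.add hq
  | mul_X p j hp =>
    have : ev (p * X j) = fun x => ev p x * (EuclideanSpace.proj j : E N →L[ℝ] ℝ) x := by
      funext x
      simp [ev]
    rw [this]
    exact hp.mul (EuclideanSpace.proj j : E N →L[ℝ] ℝ).contDiff

theorem diff_ev (P : MvPolynomial (Fin N) ℝ) : Differentiable ℝ (ev P) :=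
  (contDiff_ev P).differentiable (by simp)

theorem pd_ev (i : Fin N) (P : MvPolynomial (Fin N) ℝ) : pd i (ev P) = ev (pderiv i P) := by
  induction P using MvPolynomial.induction_on with
  | C a =>
    have : ev (C a : MvPolynomial (Fin N) ℝ) = fun _ => a := by
      funext x
      simp [ev]
    rw [this]
    funext x
    simp [pd, ev]
  | add p q hp hq =>
    have : ev (p + q) = ev p + ev q := by
      funext x
      simp [ev]
    rw [this]
    funext x
    have h1 := congrFun hp x
    have h2 := congrFun hq x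
    unfold pd at *
    rw [fderiv_add (diff_ev p x) (diff_ev q x)]
    simp only [add_apply, map_add]
    rw [h1, h2]
    simp [ev]
  | mul_X p j hp =>
    have : ev (p * X j) = fun x => ev p x * (EuclideanSpace.proj j : E N →L[ℝ] ℝ) x := by
      funext x
      simp [ev]
    rw [this]
    funext x
    have h1 := congrFun hp x
    unfold pd at *
    rw [fderiv_fun_mul (diff_ev p x) (EuclideanSpace.proj j : E N →L[ℝ] ℝ).differentiableAt,
      ContinuousLinearMap.fderiv]
    simp only [add_apply, smul_apply, smul_eq_mul]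
    rw [h1]
    simp only [ev, Derivation.leibniz, smul_eq_mul, map_add, map_mul, eval_X, pderiv_X]
    have e1 : (EuclideanSpace.proj j : E N →L[ℝ] ℝ) x = x j := rfl
    have e2 : (EuclideanSpace.proj j : E N →L[ℝ] ℝ) (EuclideanSpace.single i 1) =
        (EuclideanSpace.single i (1 : ℝ) : E N) j := rfl
    rw [e1, e2, EuclideanSpace.single_apply]
    by_cases hij : j = i
    · subst hij
      simp
    · simp [hij]

/-- the Laplacian on polynomials -/
def Lap : MvPolynomial (Fin N) ℝ →ₗ[ℝ] MvPolynomial (Fin N) ℝ :=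
  ∑ i, (pderiv i).toLinearMap ∘ₗ (pderiv i).toLinearMap

theorem Lap_apply (P : MvPolynomial (Fin N) ℝ) : Lap P = ∑ i, pderiv i (pderiv i P) := by
  unfold Lap
  rw [LinearMap.sum_apply]
  rfl

theorem lap_ev (P : MvPolynomial (Fin N) ℝ) : lap (ev P) = ev (Lap P) := by
  funext x
  unfold lap
  rw [Lap_apply]
  simp only [pd_ev]
  unfold ev
  rw [map_sum]

/-- `R² - |x|²` -/
def W (N : ℕ) (R : ℝ) : MvPolynomial (Fin N) ℝ := C (R ^ 2) - ∑ i, X i ^ 2

theorem ev_W (R : ℝ) (x : E N) : ev (W N R) x = R ^ 2 - ‖x‖ ^ 2 := by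
  unfold ev W
  rw [EuclideanSpace.norm_sq_eq]
  simp

theorem ev_mul (P Q : MvPolynomial (Fin N) ℝ) (x : E N) : ev (P * Q) x = ev P x * ev Q x := by
  simp [ev]

theorem totalDegree_pderiv (i : Fin N) (P : MvPolynomial (Fin N) ℝ) {d : ℕ}
    (h : P.totalDegree ≤ d + 1) : (pderiv i P).totalDegree ≤ d := by
  rw [P.as_sum, map_sum]
  apply totalDegree_finsetSum_le
  intro s hs
  rw [pderiv_monomial]
  by_cases h0 : s i = 0
  · rw [h0]
    simp
  · refine (totalDegree_monomial_le _ _).trans ?_
    have h1 : s.degree ≤ d + 1 := by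
      have := le_totalDegree hs
      rw [Finsupp.degree_eq_sum]
      rw [Finsupp.sum_fintype _ _ (fun _ => rfl)] at this
      exact this.trans h
    have h2 : s = (s - Finsupp.single i 1) + Finsupp.single i 1 := by
      rw [tsub_add_cancel_of_le]
      rw [Finsupp.single_le_iff]
      omega
    have h3 : s.degree = (s - Finsupp.single i 1).degree + 1 := by
      conv_lhs => rw [h2]
      rw [map_add, Finsupp.degree_single]
    have h4 : (s - Finsupp.single i 1).degree ≤ d := by omega
    rw [Finsupp.degree_eq_sum] at h4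
    rw [Finsupp.sum_fintype _ _ (fun _ => rfl)]
    exact h4

theorem totalDegree_W (R : ℝ) : (W N R).totalDegree ≤ 2 := by
  unfold W
  refine (totalDegree_sub _ _).trans (max_le (by rw [totalDegree_C]; omega) ?_)
  apply totalDegree_finsetSum_le
  intro i _
  refine (totalDegree_pow _ _).trans ?_
  simp

/-- the map `q ↦ lap ((R² - |x|²) q)` -/
def T (N : ℕ) (R : ℝ) : MvPolynomial (Fin N) ℝ →ₗ[ℝ] MvPolynomial (Fin N) ℝ :=
  Lap ∘ₗ LinearMap.mulLeft ℝ (W N R)

theorem T_apply (R : ℝ) (Q : MvPolynomial (Fin N) ℝ) : T N R Q = Lap (W N R * Q) := rfl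

theorem T_mem (R : ℝ) (d : ℕ) (Q : MvPolynomial (Fin N) ℝ)
    (h : Q ∈ restrictTotalDegree (Fin N) ℝ d) : T N R Q ∈ restrictTotalDegree (Fin N) ℝ d := by
  rw [mem_restrictTotalDegree] at *
  rw [T_apply, Lap_apply]
  apply totalDegree_finsetSum_le
  intro i _
  apply totalDegree_pderiv
  apply totalDegree_pderiv
  refine (totalDegree_mul _ _).trans ?_
  have := totalDegree_W (N := N) R
  omega

theorem T_inj (hmax : StMax) (hN : 1 ≤ N) {R : ℝ} (hR : 0 < R) (Q : MvPolynomial (Fin N) ℝ)
    (h : T N R Q = 0) : Q = 0 := by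
  rw [T_apply] at h
  have hfr : ∀ x ∈ frontier (Metric.ball (0 : E N) R), ‖x‖ = R := by
    intro x hx
    rw [frontier_ball _ hR.ne'] at hx
    simpa using hx
  have key : ∀ P : MvPolynomial (Fin N) ℝ, Lap P = 0 → (∀ x : E N, ‖x‖ = R → ev P x = 0) →
      ∀ x ∈ Metric.ball (0 : E N) R, 0 ≤ ev P x := by
    intro P hP hP0
    refine (hmax N (Metric.ball 0 R) (ev P) hN Metric.isOpen_ball Metric.isBounded_ball
      ⟨contDiff_ev P, fun x hx => hP0 x (hfr x hx)⟩ ?_).1
    intro x _
    rw [lap_ev, hP]
    simp [ev]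
  have h0 : ∀ x : E N, ‖x‖ = R → ev (W N R * Q) x = 0 := by
    intro x hx
    rw [ev_mul, ev_W, hx]
    simp
  have h1 := key _ h h0
  have h2 := key (-(W N R * Q)) (by rw [map_neg, h, neg_zero]) (by
    intro x hx
    have := h0 x hx
    unfold ev at *
    rw [map_neg, this, neg_zero])
  have hball : ∀ x ∈ Metric.ball (0 : E N) R, ev Q x = 0 := by
    intro x hx
    have h3 := h1 x hx
    have h4 := h2 x hx
    have h5 : ev (-(W N R * Q)) x = - ev (W N R * Q) x := by
      unfold ev
      rw [map_neg]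
    rw [h5] at h4
    have h6 : ev (W N R * Q) x = 0 := by linarith
    rw [ev_mul, ev_W] at h6
    rcases mul_eq_zero.1 h6 with h7 | h7
    · exfalso
      rw [Metric.mem_ball, dist_zero_right] at hx
      have := norm_nonneg x
      nlinarith
    · exact h7
  have hN' : (1 : ℝ) ≤ N := by exact_mod_cast hN
  apply MvPolynomial.funext_set (fun _ => Set.Ioo 0 (R / N))
    (fun _ => Set.Ioo_infinite (by positivity))
  intro x hx
  rw [map_zero]
  have h8 : (WithLp.toLp 2 x : E N) ∈ Metric.ball (0 : E N) R := by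
    rw [Metric.mem_ball, dist_zero_right]
    have h9 : ‖(WithLp.toLp 2 x : E N)‖ ^ 2 < R ^ 2 := by
      rw [EuclideanSpace.norm_sq_eq]
      have h10 : ∑ i, ‖(WithLp.toLp 2 x : E N) i‖ ^ 2 < ∑ _i : Fin N, (R / N) ^ 2 := by
        have hne : (Finset.univ : Finset (Fin N)).Nonempty := by
          have : NeZero N := ⟨by omega⟩
          exact Finset.univ_nonempty
        apply Finset.sum_lt_sum_of_nonempty hne
        intro i _
        have h11 := hx i (Set.mem_univ i)
        have h12 : (WithLp.toLp 2 x : E N) i = x i := rfl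
        rw [h12, Real.norm_eq_abs, sq_abs]
        have h13 : 0 < x i := h11.1
        have h14 : x i < R / N := h11.2
        nlinarith
      refine h10.trans_le ?_
      rw [Finset.sum_const, Finset.card_univ, Fintype.card_fin, nsmul_eq_mul, div_pow]
      have h15 : (N : ℝ) * (R ^ 2 / N ^ 2) = R ^ 2 / N := by
        field_simp
      rw [h15]
      exact div_le_self (by positivity) hN'
    exact lt_of_pow_lt_pow_left₀ 2 hR.le h9
  exact hball _ h8

theorem t : StFis := by
  intro hmax N R p hN hR ⟨P, hP⟩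
  set d := P.totalDegree with hd
  let V := restrictTotalDegree (Fin N) ℝ d
  let Td : V →ₗ[ℝ] V := (T N R).restrict (fun Q hQ => T_mem R d Q hQ)
  have hinj : Function.Injective Td := by
    rw [← LinearMap.ker_eq_bot, LinearMap.ker_eq_bot']
    intro Q hQ
    apply Subtype.ext
    apply T_inj hmax hN hR
    have := congrArg Subtype.val hQ
    exact this
  have hsurj : Function.Surjective Td := LinearMap.injective_iff_surjective.1 hinj
  obtain ⟨Q, hQ⟩ := hsurj ⟨P, by rw [mem_restrictTotalDegree]⟩
  have hQ' : T N R (Q : MvPolynomial (Fin N) ℝ) = P := congrArg Subtype.val hQ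
  refine ⟨ev (Q : MvPolynomial (Fin N) ℝ), ⟨Q, fun x => rfl⟩, fun x => ?_⟩
  have h1 : (fun y : E N => (R ^ 2 - ‖y‖ ^ 2) * ev (Q : MvPolynomial (Fin N) ℝ) y) =
      ev (W N R * (Q : MvPolynomial (Fin N) ℝ)) := by
    funext y
    rw [ev_mul, ev_W]
  rw [h1, lap_ev, ← T_apply, hQ', hP x]
  rfl

end Pool.Agent.K7.H1.PDFIS
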